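import Pool.Agent.H31.BOU.Targets1
import Pool.Agent.H31.BOU.Targets3

/-!
# Row FIN: the finitary theorem
-/

set_option autoImplicit false

namespace Pool.Agent.H10.BOU
open Finset Pool.Agent.H31.BOU

lemma fin_dd_le (F G : ℤ → ℂ) (hF : ∀ v, ‖F v‖ ≤ 1) (hG : ∀ v, ‖G v‖ ≤ 1) (j : ℕ) (κ : ℤ)
    (t : ℕ) (k : ℤ) : ‖DD F G j κ t k‖ ≤ 1 := by
  unfold DD
  rw [norm_div]
  have h4 : ‖(4 : ℂ) ^ j‖ = 4 ^ j := by
    rw [norm_pow]
    norm_num
  rw [h4, div_le_one (by positivity)]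
  have h1 : ∀ a ∈ range (2 ^ j), ‖∑ b ∈ range (2 ^ j),
      G ((κ - t) * 2 ^ j + a + b) * F (2 * k - ((κ - t) * 2 ^ j + a + b))‖ ≤ (2 : ℝ) ^ j := by
    intro a _
    refine (norm_sum_le _ _).trans ?_
    have h2 : ∀ b ∈ range (2 ^ j),
        ‖G ((κ - t) * 2 ^ j + a + b) * F (2 * k - ((κ - t) * 2 ^ j + a + b))‖ ≤ (1 : ℝ) := by
      intro b _
      rw [norm_mul]
      exact mul_le_one₀ (hG _) (norm_nonneg _) (hF _)
    refine (sum_le_sum h2).trans (le_of_eq ?_)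
    rw [sum_const, card_range, nsmul_eq_mul, mul_one]
    push_cast
    rfl
  refine (norm_sum_le _ _).trans ((sum_le_sum h1).trans (le_of_eq ?_))
  rw [sum_const, card_range, nsmul_eq_mul]
  push_cast
  rw [← mul_pow]
  norm_num

lemma fin_dd_add (F S G : ℤ → ℂ) (j : ℕ) (κ : ℤ) (t : ℕ) (k : ℤ) :
    DD F G j κ t k = DD (fun v => F v - S v) G j κ t k + DD S G j κ t k := by
  unfold DD
  rw [← add_div, ← sum_add_distrib]
  congr 1
  refine sum_congr rfl fun a _ => ?_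
  rw [← sum_add_distrib]
  refine sum_congr rfl fun b _ => ?_
  ring

lemma fin_avg (D : ℕ → ℂ) (v : ℂ) (M j : ℕ) (δ : ℝ) (hδ : 0 ≤ δ)
    (h : ∀ t ≤ M / 2 ^ j, ‖D t - v‖ ≤ δ) (hM : 2 ^ j ≤ M) :
    ‖(2 ^ j / M : ℂ) * ∑ t ∈ range (M / 2 ^ j + 1), D t - v‖ ≤
      2 * δ + (2 : ℝ) ^ j / M * ‖v‖ := by
  have hj : 0 < 2 ^ j := by positivity
  have hM0 : 0 < M := lt_of_lt_of_le hj hM
  have hMr : (0 : ℝ) < M := by exact_mod_cast hM0
  have hMc : (M : ℂ) ≠ 0 := by exact_mod_cast hM0.ne'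
  set n : ℕ := M / 2 ^ j + 1 with hn
  have n1 : M ≤ 2 ^ j * n := by
    rw [hn]
    exact (Nat.lt_mul_div_succ M hj).le
  have n2 : 2 ^ j * n ≤ M + 2 ^ j := by
    rw [hn, mul_add, mul_one]
    exact Nat.add_le_add_right (Nat.mul_div_le M (2 ^ j)) _
  have n1r : (M : ℝ) ≤ 2 ^ j * n := by exact_mod_cast n1
  have n2r : (2 : ℝ) ^ j * n ≤ M + 2 ^ j := by exact_mod_cast n2
  have hMjr : (2 : ℝ) ^ j ≤ M := by exact_mod_cast hM
  have e1 : (2 ^ j / M : ℂ) * ∑ t ∈ range n, D t - v =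
      (2 ^ j / M : ℂ) * ∑ t ∈ range n, (D t - v) + ((2 ^ j * n / M - 1 : ℝ) : ℂ) * v := by
    rw [sum_sub_distrib, sum_const, card_range, nsmul_eq_mul]
    push_cast
    field_simp
    ring
  have e2 : ‖(2 ^ j / M : ℂ)‖ = (2 : ℝ) ^ j / M := by
    rw [norm_div, norm_pow]
    norm_num
  rw [e1]
  refine (norm_add_le _ _).trans ?_
  rw [norm_mul, norm_mul, e2, Complex.norm_real, Real.norm_eq_abs]
  have e3 : ‖∑ t ∈ range n, (D t - v)‖ ≤ n * δ := by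
    refine (norm_sum_le _ _).trans ?_
    have h1 : ∀ t ∈ range n, ‖D t - v‖ ≤ δ := fun t ht =>
      h t (Nat.lt_succ_iff.1 (mem_range.1 ht))
    refine (sum_le_sum h1).trans (le_of_eq ?_)
    rw [sum_const, card_range, nsmul_eq_mul]
  have e4 : (2 : ℝ) ^ j / M * ‖∑ t ∈ range n, (D t - v)‖ ≤ 2 * δ := by
    refine (mul_le_mul_of_nonneg_left e3 (by positivity)).trans ?_
    have e5 : (2 : ℝ) ^ j / M * (n * δ) = 2 ^ j * n / M * δ := by ring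
    rw [e5]
    refine mul_le_mul_of_nonneg_right ?_ hδ
    rw [div_le_iff₀ hMr]
    linarith
  have e6 : |(2 : ℝ) ^ j * n / M - 1| ≤ 2 ^ j / M := by
    rw [abs_le]
    constructor
    · have h1 : (1 : ℝ) ≤ 2 ^ j * n / M := by
        rw [le_div_iff₀ hMr]
        linarith
      have h2 : (0 : ℝ) ≤ 2 ^ j / M := by positivity
      linarith
    · rw [sub_le_iff_le_add, div_add_one hMr.ne', div_le_div_iff_of_pos_right hMr]
      linarith
  exact add_le_add e4 (mul_le_mul_of_nonneg_right e6 (norm_nonneg _))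

lemma fin_kn (a b j : ℕ) : kn a b j * 2 ^ j ≤ (a : ℤ) + b ∧
    (a : ℤ) + b < (kn a b j + 2) * 2 ^ j := by
  have hj : 0 < 2 ^ j := by positivity
  have a1 := Nat.div_mul_le_self a (2 ^ j)
  have b1 := Nat.div_mul_le_self b (2 ^ j)
  have a2 := Nat.lt_div_mul_add (a := a) hj
  have b2 := Nat.lt_div_mul_add (a := b) hj
  unfold kn
  have a1' : ((a / 2 ^ j : ℕ) : ℤ) * 2 ^ j ≤ a := by exact_mod_cast a1
  have b1' : ((b / 2 ^ j : ℕ) : ℤ) * 2 ^ j ≤ b := by exact_mod_cast b1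
  have a2' : (a : ℤ) < ((a / 2 ^ j : ℕ) : ℤ) * 2 ^ j + 2 ^ j := by exact_mod_cast a2
  have b2' : (b : ℤ) < ((b / 2 ^ j : ℕ) : ℤ) * 2 ^ j + 2 ^ j := by exact_mod_cast b2
  constructor <;> nlinarith

lemma fin_one (hK : T_KER) (F G : ℤ → ℂ) (hF : ∀ v, ‖F v‖ ≤ 1) (hG : ∀ v, ‖G v‖ ≤ 1)
    (a b L M : ℕ) (lam : ℝ) (hlam : 0 < lam) (hL : (1 : ℝ) / 2 ^ L ≤ lam / 100) (v : ℂ)
    (hM : 2 ^ L ≤ M)
    (hv : ∀ t ≤ 2 ^ (L + 1), ‖DD F G (Nat.log 2 M - L) (kn a b (Nat.log 2 M - L)) t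
      ((a : ℤ) + b) - v‖ ≤ 2 * (lam / 100)) :
    ‖AN F G M ((a : ℤ) + b) - v‖ ≤ lam / 2 := by
  have hL0 : 0 < 2 ^ L := by positivity
  have hM0 : M ≠ 0 := by
    intro h
    rw [h] at hM
    exact absurd hM (not_le.2 hL0)
  set l : ℕ := Nat.log 2 M with hl
  have hLl : L ≤ l := Nat.le_log_of_pow_le (by norm_num) hM
  set j : ℕ := l - L with hj
  have hjl : j + L = l := by omega
  have p1 : 2 ^ j * 2 ^ L ≤ M := by
    rw [← pow_add, hjl]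
    exact Nat.pow_log_le_self 2 hM0
  have p2 : M < 2 ^ j * 2 ^ (L + 1) := by
    rw [← pow_add]
    have e : j + (L + 1) = l + 1 := by omega
    rw [e]
    exact Nat.lt_pow_succ_log_self (by norm_num) M
  have hjM : 2 ^ j ≤ M := le_trans (Nat.le_mul_of_pos_right _ hL0) p1
  have hdiv : M / 2 ^ j ≤ 2 ^ (L + 1) :=
    (Nat.div_lt_of_lt_mul p2).le
  obtain ⟨k1, k2⟩ := fin_kn a b j
  have h1 := hK F G j (kn a b j) ((a : ℤ) + b) M hF hG k1 k2 hjM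
  have h2 := fin_avg (fun t => DD F G j (kn a b j) t ((a : ℤ) + b)) v M j (2 * (lam / 100))
    (by positivity) (fun t ht => hv t (ht.trans hdiv)) hjM
  have hMr : (0 : ℝ) < M := by exact_mod_cast Nat.pos_of_ne_zero hM0
  have p1r : (2 : ℝ) ^ j * 2 ^ L ≤ M := by exact_mod_cast p1
  have hx : (2 : ℝ) ^ j / M ≤ lam / 100 := by
    refine le_trans ?_ hL
    rw [div_le_div_iff₀ hMr (by positivity)]
    linarith
  have hx1 : (2 : ℝ) ^ j / M ≤ 1 := by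
    rw [div_le_one hMr]
    exact_mod_cast hjM
  have hx0 : 0 ≤ (2 : ℝ) ^ j / M := by positivity
  have hvn : ‖v‖ ≤ 1 + 2 * (lam / 100) := by
    have h3 := hv 0 (Nat.zero_le _)
    have h4 := fin_dd_le F G hF hG j (kn a b j) 0 ((a : ℤ) + b)
    have h5 : v = DD F G j (kn a b j) 0 ((a : ℤ) + b) -
        (DD F G j (kn a b j) 0 ((a : ℤ) + b) - v) := by ring
    rw [h5]
    exact (norm_sub_le _ _).trans (add_le_add h4 h3)
  have h6 : (2 : ℝ) ^ j / M * ‖v‖ ≤ lam / 100 + 2 * (lam / 100) := by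
    calc (2 : ℝ) ^ j / M * ‖v‖ ≤ 2 ^ j / M * (1 + 2 * (lam / 100)) :=
          mul_le_mul_of_nonneg_left hvn hx0
      _ = 2 ^ j / M + 2 ^ j / M * (2 * (lam / 100)) := by ring
      _ ≤ lam / 100 + 1 * (2 * (lam / 100)) :=
          add_le_add hx (mul_le_mul_of_nonneg_right hx1 (by positivity))
      _ = _ := by ring
  have h7 : (8 : ℝ) * 2 ^ j / M ≤ 8 * (lam / 100) := by
    rw [mul_div_assoc]
    exact mul_le_mul_of_nonneg_left hx (by norm_num)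
  have h8 : AN F G M ((a : ℤ) + b) - v = (AN F G M ((a : ℤ) + b) -
      (2 ^ j / M : ℂ) * ∑ t ∈ range (M / 2 ^ j + 1), DD F G j (kn a b j) t ((a : ℤ) + b)) +
      ((2 ^ j / M : ℂ) * ∑ t ∈ range (M / 2 ^ j + 1), DD F G j (kn a b j) t ((a : ℤ) + b) -
        v) := by ring
  rw [h8]
  refine (norm_add_le _ _).trans ?_
  linarith

lemma fin_const (val : ℕ → ℂ) (J : ℕ) (E : Finset ℕ)
    (h : ∀ j < J, j ∉ E → j + 1 ∉ E → val j = val (j + 1)) (j0 : ℕ) :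
    ∀ d : ℕ, j0 + d ≤ J → (∀ j, j0 ≤ j → j ≤ j0 + d → j ∉ E) → val j0 = val (j0 + d) := by
  intro d
  induction d with
  | zero => intro _ _; rfl
  | succ d ih =>
    intro hJ hE
    rw [ih (by omega) fun j h1 h2 => hE j h1 (by omega)]
    exact h (j0 + d) (by omega) (hE _ (by omega) (by omega)) (hE _ (by omega) (by omega))

/-- FIN: the finitary theorem. -/
theorem pf_FIN (hS : T_SUM) (hR : T_STR) (hP : T_PUR) (hK : T_KER) : T_FIN := by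
  classical
  intro ε lam hε hlam
  obtain ⟨L, hL⟩ : ∃ L : ℕ, 100 / lam < 2 ^ L := pow_unbounded_of_one_lt _ one_lt_two
  have hL1 : (1 : ℝ) / 2 ^ L ≤ lam / 100 := by
    rw [div_lt_iff₀ hlam] at hL
    rw [div_le_div_iff₀ (by positivity) (by norm_num)]
    linarith
  obtain ⟨n0, hn0, hsum⟩ := hS (2 ^ (L + 1)) (ε / 2) (lam / 100) (by positivity) (by positivity)
  have hτ : (0 : ℝ) < 1 / 2 ^ (32 * n0) := by positivity
  obtain ⟨K, hstr⟩ := hR (2 ^ (L + 1)) (ε / 2) (lam / 100) (1 / 2 ^ (32 * n0)) (by positivity)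
    (by positivity) hτ
  refine ⟨K, L, fun J F G hF hG => ?_⟩
  obtain ⟨n, P, hP1, hP2, hP3⟩ := hP J (1 / 2 ^ (32 * n0)) F hτ hF.1 hF.2
  have hpur : PurP J (1 / 2 ^ (32 * n0)) F P := ⟨hP1, hP2, hP3⟩
  have b1 := hsum (Fin n) J F G P hF hG hpur
  have b2 := hstr (Fin n) J F G P hF hG hpur
  have key : ∀ A A1 A2 : Finset (ℕ × ℕ), (A1.card : ℝ) ≤ ε / 2 * 4 ^ J →
      (A2.card : ℝ) ≤ ε / 2 * 4 ^ J → A ⊆ A1 ∪ A2 → (A.card : ℝ) ≤ ε * 4 ^ J := by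
    intro A A1 A2 h1 h2 h
    have h3 : (A.card : ℝ) ≤ A1.card + A2.card := by
      exact_mod_cast (card_le_card h).trans (card_union_le _ _)
    linarith
  refine key _ _ _ b1 b2 ?_
  intro ab hab
  rw [mem_filter] at hab
  rw [mem_union, mem_filter, mem_filter]
  by_contra hn
  obtain ⟨hn1, hn2⟩ := not_or.1 hn
  have g1 : ¬ ∃ j ≤ J, ∃ t ≤ 2 ^ (L + 1), lam / 100 <
      ‖DD (fun v => F v - P.str j v) G j (kn ab.1 ab.2 j) t ((ab.1 : ℤ) + ab.2)‖ :=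
    fun h => hn1 ⟨hab.1, h⟩
  have g2 := not_not.1 fun h => hn2 ⟨hab.1, h⟩
  obtain ⟨E, val, hE, hval, hcon⟩ := g2
  apply hab.2
  refine ⟨E, hE, fun N N' hN hNN' hN' hEE => ?_⟩
  have hdd : ∀ j ≤ J, j ∉ E → ∀ t ≤ 2 ^ (L + 1),
      ‖DD F G j (kn ab.1 ab.2 j) t ((ab.1 : ℤ) + ab.2) - val j‖ ≤ 2 * (lam / 100) := by
    intro j hj hjE t ht
    rw [fin_dd_add F (P.str j) G, add_sub_assoc]
    refine (norm_add_le _ _).trans ?_
    have h1 : ‖DD (fun v => F v - P.str j v) G j (kn ab.1 ab.2 j) t ((ab.1 : ℤ) + ab.2)‖ ≤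
        lam / 100 := not_lt.1 fun h => g1 ⟨j, hj, t, ht, h⟩
    have h2 := hval j hj hjE t ht
    linarith
  have hlogJ : ∀ M, M ≤ 2 ^ J → Nat.log 2 M ≤ J := fun M hM =>
    (Nat.log_mono_right hM).trans (le_of_eq (Nat.log_pow (by norm_num) J))
  have hlogL : ∀ M, 2 ^ L ≤ M → L ≤ Nat.log 2 M := fun M hM =>
    Nat.le_log_of_pow_le (by norm_num) hM
  have hmono : Nat.log 2 N ≤ Nat.log 2 N' := Nat.log_mono_right hNN'
  have l1 := hlogL N hN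
  have l2 := hlogJ N' hN'
  have q1 : ‖AN F G N ((ab.1 : ℤ) + ab.2) - val (Nat.log 2 N - L)‖ ≤ lam / 2 :=
    fin_one hK F G hF.1 hG.1 ab.1 ab.2 L N lam hlam hL1 _ hN
      (hdd _ (by omega) (hEE _ (by omega) (by omega)))
  have q2 : ‖AN F G N' ((ab.1 : ℤ) + ab.2) - val (Nat.log 2 N' - L)‖ ≤ lam / 2 :=
    fin_one hK F G hF.1 hG.1 ab.1 ab.2 L N' lam hlam hL1 _ (hN.trans hNN')
      (hdd _ (by omega) (hEE _ (by omega) (by omega)))
  have q3 : val (Nat.log 2 N - L) = val (Nat.log 2 N' - L) := by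
    have h1 := fin_const val J E hcon (Nat.log 2 N - L) (Nat.log 2 N' - Nat.log 2 N)
      (by omega) (fun j h1 h2 => hEE j (by omega) (by omega))
    have e : Nat.log 2 N - L + (Nat.log 2 N' - Nat.log 2 N) = Nat.log 2 N' - L := by omega
    rw [e] at h1
    exact h1
  rw [q3] at q1
  have q4 : AN F G N ((ab.1 : ℤ) + ab.2) - AN F G N' ((ab.1 : ℤ) + ab.2) =
      (AN F G N ((ab.1 : ℤ) + ab.2) - val (Nat.log 2 N' - L)) -
      (AN F G N' ((ab.1 : ℤ) + ab.2) - val (Nat.log 2 N' - L)) := by ring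
  rw [q4]
  refine (norm_sub_le _ _).trans ?_
  linarith

end Pool.Agent.H10.BOU
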