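import Pool.Agent.H31.BOU.Targets1
import Pool.Agent.H31.BOU.Targets2

/-!
# Row TY2: the number of exceptional nodes of the second type
-/

set_option autoImplicit false

namespace Pool.Agent.H10.BOU
open Finset Pool.Agent.H31.BOU

lemma ty2_real (x y z m : ℝ) (hm : 4 * m = x + 2 * y + z) :
    (x ^ 2 + 2 * y ^ 2 + z ^ 2) / 4 - m ^ 2 =
      ((x - m) ^ 2 + 2 * (y - m) ^ 2 + (z - m) ^ 2) / 4 := by
  linear_combination (-m / 2) * hm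

lemma ty2_cplx (x y z m : ℂ) (hm : m = (x + 2 * y + z) / 4) :
    (‖x‖ ^ 2 + 2 * ‖y‖ ^ 2 + ‖z‖ ^ 2) / 4 - ‖m‖ ^ 2 =
      (‖x - m‖ ^ 2 + 2 * ‖y - m‖ ^ 2 + ‖z - m‖ ^ 2) / 4 := by
  have h4 : 4 * m = x + 2 * y + z := by rw [hm]; ring
  have hre : 4 * m.re = x.re + 2 * y.re + z.re := by
    have := congrArg Complex.re h4
    simpa using this
  have him : 4 * m.im = x.im + 2 * y.im + z.im := by
    have := congrArg Complex.im h4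
    simpa using this
  have e1 := ty2_real _ _ _ _ hre
  have e2 := ty2_real _ _ _ _ him
  simp only [← Complex.normSq_eq_norm_sq, Complex.normSq_apply, Complex.sub_re, Complex.sub_im]
  linear_combination e1 + e2

lemma ty2_tri (x y m : ℂ) : ‖x - y‖ ^ 2 ≤ 2 * ‖x - m‖ ^ 2 + 2 * ‖y - m‖ ^ 2 := by
  have h1 : ‖x - y‖ ≤ ‖x - m‖ + ‖y - m‖ := by
    have h3 : x - y = (x - m) - (y - m) := by ring
    rw [h3]
    exact norm_sub_le _ _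
  have h2 := norm_nonneg (x - y)
  nlinarith [sq_nonneg (‖x - m‖ - ‖y - m‖), norm_nonneg (x - m), norm_nonneg (y - m)]

lemma ty2_vr (φ : ℕ → ℤ → ℂ) (j : ℕ) (κ : ℤ)
    (h : φ (j + 1) κ = (φ j (2 * κ) + 2 * φ j (2 * κ + 1) + φ j (2 * κ + 2)) / 4) :
    0 ≤ vr φ j κ ∧ ‖φ j (2 * κ) - φ j (2 * κ + 1)‖ ^ 2 ≤ 8 * vr φ j κ ∧
      ‖φ j (2 * κ + 1) - φ j (2 * κ + 2)‖ ^ 2 ≤ 8 * vr φ j κ := by
  have e := ty2_cplx _ _ _ _ h
  have e1 : vr φ j κ = (‖φ j (2 * κ) - φ (j + 1) κ‖ ^ 2 +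
      2 * ‖φ j (2 * κ + 1) - φ (j + 1) κ‖ ^ 2 +
      ‖φ j (2 * κ + 2) - φ (j + 1) κ‖ ^ 2) / 4 := e
  have t1 := ty2_tri (φ j (2 * κ)) (φ j (2 * κ + 1)) (φ (j + 1) κ)
  have t2 := ty2_tri (φ j (2 * κ + 1)) (φ j (2 * κ + 2)) (φ (j + 1) κ)
  have n1 := sq_nonneg ‖φ j (2 * κ) - φ (j + 1) κ‖
  have n2 := sq_nonneg ‖φ j (2 * κ + 1) - φ (j + 1) κ‖
  have n3 := sq_nonneg ‖φ j (2 * κ + 2) - φ (j + 1) κ‖
  rw [e1]
  refine ⟨by positivity, by linarith, by linarith⟩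

lemma ty2_step (φ : ℕ → ℤ → ℂ) (hφ : ∀ (j : ℕ) (κ : ℤ),
      φ (j + 1) κ = (φ j (2 * κ) + 2 * φ j (2 * κ + 1) + φ j (2 * κ + 2)) / 4)
    (j : ℕ) (x : ℤ) : ‖φ j x - φ j (x + 1)‖ ^ 2 ≤ 8 * vr φ j (x / 2) := by
  obtain ⟨-, h1, h2⟩ := ty2_vr φ j (x / 2) (hφ j (x / 2))
  have hx := Int.mul_ediv_add_emod x 2
  rcases Int.emod_two_eq_zero_or_one x with h | h
  · have e : 2 * (x / 2) = x := by omega
    rw [e] at h1
    exact h1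
  · have e : 2 * (x / 2) + 1 = x := by omega
    have e' : 2 * (x / 2) + 2 = x + 1 := by omega
    rw [e, e'] at h2
    exact h2

lemma ty2_tele (φ : ℤ → ℂ) (κ : ℤ) (t : ℕ) :
    φ (κ - t) - φ κ = ∑ v ∈ range t, (φ (κ - ((v + 1 : ℕ) : ℤ)) -
      φ (κ - ((v + 1 : ℕ) : ℤ) + 1)) := by
  induction t with
  | zero => simp
  | succ t ih =>
    rw [sum_range_succ, ← ih]
    have e : κ - ((t + 1 : ℕ) : ℤ) + 1 = κ - t := by push_cast; ring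
    rw [e]
    ring

lemma ty2_shift (φ : ℕ → ℤ → ℂ) (hφ : ∀ (j : ℕ) (κ : ℤ),
      φ (j + 1) κ = (φ j (2 * κ) + 2 * φ j (2 * κ + 1) + φ j (2 * κ + 2)) / 4)
    (j : ℕ) (κ : ℤ) (t T : ℕ) (htT : t ≤ T) :
    ‖φ j (κ - t) - φ j κ‖ ^ 2 ≤
      8 * T * ∑ v ∈ range T, vr φ j ((κ - ((v + 1 : ℕ) : ℤ)) / 2) := by
  have h0 : ∀ x : ℤ, 0 ≤ vr φ j x := fun x => (ty2_vr φ j x (hφ j x)).1
  have h1 : ‖φ j (κ - t) - φ j κ‖ ^ 2 ≤
      (∑ v ∈ range t, ‖φ j (κ - ((v + 1 : ℕ) : ℤ)) - φ j (κ - ((v + 1 : ℕ) : ℤ) + 1)‖) ^ 2 := by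
    rw [ty2_tele (φ j) κ t]
    exact pow_le_pow_left₀ (norm_nonneg _) (norm_sum_le _ _) 2
  have h2 := sq_sum_le_card_mul_sum_sq (s := range t)
    (f := fun v : ℕ => ‖φ j (κ - ((v + 1 : ℕ) : ℤ)) - φ j (κ - ((v + 1 : ℕ) : ℤ) + 1)‖)
  rw [card_range] at h2
  have h3 : ∑ v ∈ range t,
      ‖φ j (κ - ((v + 1 : ℕ) : ℤ)) - φ j (κ - ((v + 1 : ℕ) : ℤ) + 1)‖ ^ 2 ≤
      ∑ v ∈ range T, 8 * vr φ j ((κ - ((v + 1 : ℕ) : ℤ)) / 2) :=
    (sum_le_sum fun v _ => ty2_step φ hφ j _).trans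
      (sum_le_sum_of_subset_of_nonneg (range_subset_range.2 htT)
        fun v _ _ => mul_nonneg (by norm_num) (h0 _))
  have h4 : (t : ℝ) ≤ T := by exact_mod_cast htT
  have h5 : 0 ≤ ∑ v ∈ range T, 8 * vr φ j ((κ - ((v + 1 : ℕ) : ℤ)) / 2) :=
    sum_nonneg fun v _ => mul_nonneg (by norm_num) (h0 _)
  calc ‖φ j (κ - t) - φ j κ‖ ^ 2 ≤ _ := h1
    _ ≤ _ := h2
    _ ≤ (t : ℝ) * ∑ v ∈ range T, 8 * vr φ j ((κ - ((v + 1 : ℕ) : ℤ)) / 2) :=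
        mul_le_mul_of_nonneg_left h3 (by positivity)
    _ ≤ (T : ℝ) * ∑ v ∈ range T, 8 * vr φ j ((κ - ((v + 1 : ℕ) : ℤ)) / 2) :=
        mul_le_mul_of_nonneg_right h4 h5
    _ = _ := by rw [← mul_sum]; ring

lemma ty2_two (K S : Finset ℤ) (h : ℤ → ℝ) (h0 : ∀ x, 0 ≤ h x) (hs : ∀ x, x ∉ S → h x = 0)
    (c : ℤ) : ∑ κ ∈ K, h ((κ - c) / 2) ≤ 2 * ∑ x ∈ S, h x := by
  have e1 : ∀ κ : ℤ, h ((κ - c) / 2) = ∑ x ∈ S, if (κ - c) / 2 = x then h x else 0 := by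
    intro κ
    rw [sum_ite_eq]
    split_ifs with hk
    · rfl
    · exact hs _ hk
  simp only [e1]
  rw [sum_comm, mul_sum]
  refine sum_le_sum fun x _ => ?_
  rw [← sum_filter, sum_const, nsmul_eq_mul]
  refine mul_le_mul_of_nonneg_right ?_ (h0 x)
  have hsub : K.filter (fun κ => (κ - c) / 2 = x) ⊆ {2 * x + c, 2 * x + c + 1} := by
    intro κ hκ
    rw [mem_filter] at hκ
    have := Int.mul_ediv_add_emod (κ - c) 2
    rw [mem_insert, mem_singleton]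
    rcases Int.emod_two_eq_zero_or_one (κ - c) with h | h <;> omega
  have hc := (card_le_card hsub).trans card_le_two
  exact_mod_cast hc

/-- The variance at the alive nodes. -/
noncomputable def ty2h {ι θ : Type} [Fintype ι] [Fintype θ] (q : ℝ) (G : ℤ → ℂ)
    (Q : Fam θ) (P : Fam ι) (i : ι) (j : ℕ) (κ : ℤ) : ℝ :=
  open Classical in
  if alive 4 2 q Q P i (j + 1) κ then vr (ph G (P.be i)) j κ else 0

section
variable {ι θ : Type} [Fintype ι] [Fintype θ] (q : ℝ) (G : ℤ → ℂ) (Q : Fam θ) (P : Fam ι)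

lemma ty2h_nonneg (hG : T_MG) (i : ι) (j : ℕ) (κ : ℤ) : 0 ≤ ty2h q G Q P i j κ := by
  unfold ty2h
  split_ifs
  · exact (ty2_vr _ j κ (hG G (P.be i) j κ)).1
  · exact le_rfl

lemma ty2h_supp (hM : T_MON) (i : ι) (j : ℕ) (κ : ℤ) (h : ty2h q G Q P i j κ ≠ 0) :
    j + 1 < P.sc i ∧ κ ∈ Ico (P.mm i * 2 ^ (P.sc i - (j + 1)))
      ((P.mm i + 1) * 2 ^ (P.sc i - (j + 1))) := by
  have hal : alive 4 2 q Q P i (j + 1) κ := by
    by_contra hn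
    exact h (if_neg hn)
  have hlong := hal.1
  have hlt : j + 1 < P.sc i :=
    (((hM.2.2.1) 2 (P.sc i) (P.mm i) (j + 1) κ 4 le_rfl le_rfl).1 hlong).1
  refine ⟨hlt, ?_⟩
  have e : (2 : ℤ) ^ P.sc i = 2 ^ (P.sc i - (j + 1)) * 2 ^ (j + 1) := by
    rw [← pow_add]
    congr 1
    omega
  obtain ⟨h1, h2⟩ := hlong
  rw [e, ← mul_assoc] at h1 h2
  have hp : (0 : ℤ) < 2 ^ (j + 1) := by positivity
  have h3 := le_of_mul_le_mul_right h1 hp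
  have h4 := le_of_mul_le_mul_right h2 hp
  push_cast at h3 h4
  rw [mem_Ico]
  omega

lemma ty2_node (hN : T_NBR) (hG : T_MG) (T : ℕ) (hq : 1 ≤ q) (j : ℕ) (κ : ℤ)
    (h : exc2 T q G Q P j κ) :
    1 ≤ 8 * T * q ^ 4 * ∑ v ∈ range T, ∑ i, ty2h q G Q P i j ((κ - ((v + 1 : ℕ) : ℤ)) / 2) := by
  classical
  obtain ⟨t, htT, hlt⟩ := h
  have hq4 : 0 < q ^ 4 := by positivity
  have h1 : ∀ i : ι, (if alive (cc T) (rr T) q Q P i j κ then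
      ‖ph G (P.be i) j (κ - t) - ph G (P.be i) j κ‖ ^ 2 else 0) ≤
      8 * T * ∑ v ∈ range T, ty2h q G Q P i j ((κ - ((v + 1 : ℕ) : ℤ)) / 2) := by
    intro i
    by_cases hal : alive (cc T) (rr T) q Q P i j κ
    · rw [if_pos hal]
      refine (ty2_shift (ph G (P.be i)) (hG G (P.be i)) j κ t T htT).trans (le_of_eq ?_)
      congr 1
      refine sum_congr rfl fun v hv => ?_
      have hv' := mem_range.1 hv
      exact (if_pos (hN ι θ T q Q P i j κ (v + 1) hq (by omega) (by omega) hal)).symm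
    · rw [if_neg hal]
      exact mul_nonneg (by positivity) (sum_nonneg fun v _ => ty2h_nonneg q G Q P hG i j _)
  have h2 : 1 / q ^ 4 ≤
      ∑ i, 8 * T * ∑ v ∈ range T, ty2h q G Q P i j ((κ - ((v + 1 : ℕ) : ℤ)) / 2) := by
    refine hlt.le.trans (le_trans (le_of_eq ?_) (sum_le_sum fun i _ => h1 i))
    refine sum_congr rfl fun i _ => ?_
    congr
  rw [div_le_iff₀ hq4, ← mul_sum, sum_comm] at h2
  linarith

end

open Classical in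
lemma ty2_energy (hE : T_EN) (hM : T_MON) (hG : T_MG) {ι θ : Type} [Fintype ι] [Fintype θ]
    (q : ℝ) (G : ℤ → ℂ) (Q : Fam θ) (P : Fam ι) (σ : ℝ) (hσ : 0 ≤ σ) (J : ℕ)
    (i : ι) (hi : P.sc i ≤ J)
    (hA : ∀ (j : ℕ) (κ : ℤ),
      (long 2 (P.sc i) (P.mm i) j κ → far 4 (3 / 2 * q ^ 40) Q (P.be i) j κ →
        Good 4 q Q P j κ → ‖ph G (P.be i) j κ‖ ≤ σ) ∧
      (∀ b : ℤ, 0 ≤ b → b ≤ 2 → long 2 (P.sc i) (P.mm i) (j + 1) κ →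
        far 4 (3 / 2 * q ^ 40) Q (P.be i) (j + 1) κ → Good 4 q Q P (j + 1) κ →
        ‖ph G (P.be i) j (2 * κ + b)‖ ≤ σ)) :
    ∑ j ∈ range J, (2 : ℝ) ^ (j + 1) * ∑ κ ∈ Ico (P.mm i * 2 ^ (P.sc i - (j + 1)))
      ((P.mm i + 1) * 2 ^ (P.sc i - (j + 1))), ty2h q G Q P i j κ ≤
      20 * σ ^ 2 * 2 ^ P.sc i := by
  have h1 := (hE (P.sc i) (P.mm i) 2 (ph G (P.be i))
    (fun j κ => far 4 (3 / 2 * q ^ 40) Q (P.be i) j κ ∧ Good 4 q Q P j κ) σ le_rfl hσ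
    (hG G (P.be i))
    (fun j κ c hc0 hc2 h => ⟨hM.2.2.2.2 θ 4 (3 / 2 * q ^ 40) Q (P.be i) j κ c (by positivity)
      hc0 hc2 h.1, hM.2.2.2.1 ι θ 4 q Q P j κ c hc0 hc2 h.2⟩)
    (fun j κ hl hf => (hA j κ).1 hl hf.1 hf.2)
    (fun j κ c hc0 hc2 hl hf => (hA j κ).2 c hc0 hc2 hl hf.1 hf.2)).1
  have h2 : ∑ j ∈ range J, (2 : ℝ) ^ (j + 1) * ∑ κ ∈ Ico (P.mm i * 2 ^ (P.sc i - (j + 1)))
      ((P.mm i + 1) * 2 ^ (P.sc i - (j + 1))), ty2h q G Q P i j κ =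
      ∑ j ∈ range (P.sc i), (2 : ℝ) ^ (j + 1) *
        ∑ κ ∈ Ico (P.mm i * 2 ^ (P.sc i - (j + 1)))
      ((P.mm i + 1) * 2 ^ (P.sc i - (j + 1))), ty2h q G Q P i j κ := by
    symm
    refine sum_subset (range_subset_range.2 hi) fun j _ hj => ?_
    have hj' : P.sc i ≤ j := by simpa using hj
    rw [sum_eq_zero, mul_zero]
    intro κ _
    by_contra hne
    have := (ty2h_supp q G Q P hM i j κ hne).1
    omega
  rw [h2]
  refine le_trans (le_of_eq ?_) h1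
  refine sum_congr rfl fun j _ => ?_
  congr 1
  refine sum_congr rfl fun κ _ => ?_
  unfold ty2h
  by_cases hal : alive 4 2 q Q P i (j + 1) κ
  · rw [if_pos hal, if_pos ⟨hal.1, hal.2.1, hal.2.2⟩]
  · rw [if_neg hal, if_neg fun h => hal ⟨h.1, h.2.1, h.2.2⟩]

/-- TY2: the number of exceptional nodes of the second type. -/
theorem pf_TY2 (hE : T_EN) (hS : T_SQ) (hM : T_MON) (hN : T_NBR) (hG : T_MG) (hA : T_ALB) :
    T_TY2 := by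
  intro T
  obtain ⟨CA, hCA, hAL⟩ := hA T
  have hK0 : (0 : ℝ) < K0 := by unfold K0; positivity
  refine ⟨160 * T ^ 2 * CA ^ 2 * K0 + 1, by positivity, ?_⟩
  intro ι θ _ _ J q G Q P hyp
  classical
  have hq1 := hyp.q1
  have hq0 : 0 < q := by linarith
  set σ : ℝ := CA / q ^ 7 with hσ
  have hσ0 : 0 ≤ σ := by positivity
  set h : ι → ℕ → ℤ → ℝ := fun i j κ => ty2h q G Q P i j κ with hh
  have h0 : ∀ i j κ, 0 ≤ h i j κ := fun i j κ => ty2h_nonneg q G Q P hG i j κ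
  set S : ι → ℕ → Finset ℤ := fun i j => Ico (P.mm i * 2 ^ (P.sc i - (j + 1)))
      ((P.mm i + 1) * 2 ^ (P.sc i - (j + 1))) with hS'
  have hsupp : ∀ i j κ, κ ∉ S i j → h i j κ = 0 := by
    intro i j κ hκ
    by_contra hne
    exact hκ (ty2h_supp q G Q P hM i j κ hne).2
  have hen : ∀ i, ∑ j ∈ range J, (2 : ℝ) ^ (j + 1) * ∑ κ ∈ S i j, h i j κ ≤
      20 * σ ^ 2 * 2 ^ P.sc i := fun i =>
    ty2_energy hE hM hG q G Q P σ hσ0 J i (hyp.Ps i).1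
      (fun j κ => hAL ι θ J q G Q P hyp 4 2 (Or.inr ⟨rfl, rfl⟩) i j κ)
  set F : ℕ → ℤ → ℝ := fun j κ =>
    8 * T * q ^ 4 * ∑ v ∈ range T, ∑ i, h i j ((κ - ((v + 1 : ℕ) : ℤ)) / 2) with hF
  have hF0 : ∀ j κ, 0 ≤ F j κ := fun j κ =>
    mul_nonneg (by positivity) (sum_nonneg fun v _ => sum_nonneg fun i _ => h0 i j _)
  have step1 : ∀ j ∈ range J, (4 : ℝ) ^ j * ∑ p ∈ range (2 ^ (J - j)),
      ∑ s ∈ range (2 ^ (J - j)), (if exc2 T q G Q P j ((p : ℤ) + s) then (1 : ℝ) else 0) ≤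
      8 * T ^ 2 * q ^ 4 * 2 ^ J * ∑ i, (2 : ℝ) ^ (j + 1) * ∑ κ ∈ S i j, h i j κ := by
    intro j hj
    have hjJ : j ≤ J := (mem_range.1 hj).le
    have a1 : (4 : ℝ) ^ j * ∑ p ∈ range (2 ^ (J - j)),
        ∑ s ∈ range (2 ^ (J - j)), (if exc2 T q G Q P j ((p : ℤ) + s) then (1 : ℝ) else 0) ≤
        (4 : ℝ) ^ j * ∑ p ∈ range (2 ^ (J - j)), ∑ s ∈ range (2 ^ (J - j)),
          F j ((p : ℤ) + s) := by
      refine mul_le_mul_of_nonneg_left (sum_le_sum fun p _ => sum_le_sum fun s _ => ?_)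
        (by positivity)
      split_ifs with hx
      · exact ty2_node q G Q P hN hG T hq1 j _ hx
      · exact hF0 j _
    have a2 := hS J j (F j) hjJ (hF0 j)
    have a3 : ∑ κ ∈ Ico (0 : ℤ) (2 ^ (J - j + 1)), F j κ ≤
        8 * T * q ^ 4 * (T * ∑ i, 2 * ∑ κ ∈ S i j, h i j κ) := by
      rw [hF]
      simp only
      rw [← mul_sum]
      refine mul_le_mul_of_nonneg_left ?_ (by positivity)
      rw [sum_comm]
      have b1 : ∀ v ∈ range T, ∑ κ ∈ Ico (0 : ℤ) (2 ^ (J - j + 1)),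
          ∑ i, h i j ((κ - ((v + 1 : ℕ) : ℤ)) / 2) ≤ ∑ i, 2 * ∑ κ ∈ S i j, h i j κ := by
        intro v _
        rw [sum_comm]
        exact sum_le_sum fun i _ => ty2_two _ (S i j) (h i j) (h0 i j) (hsupp i j) _
      refine (sum_le_sum b1).trans (le_of_eq ?_)
      rw [sum_const, card_range, nsmul_eq_mul]
    have a4 := mul_le_mul_of_nonneg_left a3 (show (0 : ℝ) ≤ 2 ^ J * 2 ^ j by positivity)
    refine (a1.trans (a2.trans a4)).trans (le_of_eq ?_)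
    rw [← mul_sum, ← mul_sum]
    ring
  refine (sum_le_sum step1).trans ?_
  rw [← mul_sum, sum_comm]
  have step2 : ∑ i, ∑ j ∈ range J, (2 : ℝ) ^ (j + 1) * ∑ κ ∈ S i j, h i j κ ≤
      20 * σ ^ 2 * (K0 * q ^ 64 * 2 ^ J) := by
    refine (sum_le_sum fun i _ => hen i).trans ?_
    rw [← mul_sum]
    exact mul_le_mul_of_nonneg_left hyp.Pn (by positivity)
  have step3 := mul_le_mul_of_nonneg_left step2
    (show (0 : ℝ) ≤ 8 * T ^ 2 * q ^ 4 * 2 ^ J by positivity)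
  refine step3.trans ?_
  have e4 : (4 : ℝ) ^ J = 2 ^ J * 2 ^ J := by
    rw [← mul_pow]
    norm_num
  have e5 : 8 * (T : ℝ) ^ 2 * q ^ 4 * 2 ^ J * (20 * σ ^ 2 * (K0 * q ^ 64 * 2 ^ J)) =
      160 * T ^ 2 * CA ^ 2 * K0 * q ^ 54 * 4 ^ J := by
    rw [hσ, e4]
    field_simp
    ring
  rw [e5]
  have e6 : 0 ≤ q ^ 54 * (4 : ℝ) ^ J := by positivity
  nlinarith

end Pool.Agent.H10.BOU
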